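import Pool.Agent.Helper71.UQ.Goals

/-!
# Packet UQ-NETZ (MP_9b2a83_an): three step networks in `ℤ^d`, assembly
-/

set_option autoImplicit false

namespace Pool.Agent.Helper8.UQ.PkNETZ

open Pool.Agent.Helper71.UQ Pool.Agent.Helper39.Net

/-- `Net3` is monotone in the bounds. -/
theorem net3_mono {d : ℕ} {R : (Fin d → ℤ) → (Fin d → ℤ) → Prop} {a b c T1 : ℕ} (ha : a ≤ T1)
    (hb : b ≤ T1) (hc : c ≤ T1) (h : Net3 d R a b c) : Net3 d R T1 T1 T1 := by
  intro X Y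
  obtain ⟨hL, hU, H, h1, h2, h3, h4⟩ := h X Y
  exact ⟨hL, hU, H, fun x => (h1 x).trans ha, fun x => (h2 x).trans hb,
    h3.trans (Nat.mul_le_mul_right _ hc), h4⟩

theorem gJ_spec {τ : ℕ} (hτ : 1 ≤ τ) (J j : ℕ) : gJ τ J j ≤ j ∧ j < gJ τ J j + τ := by
  unfold gJ
  split_ifs
  · have e1 := Nat.div_add_mod j τ
    have e2 := Nat.mod_lt j hτ
    generalize τ * (j / τ) = q at *
    omega
  · omega

/-- UQ-NETZ. -/
theorem thm (h1 : G_BOX) (h2 : G_CNT) (h3 : G_PAR) : G_NETZ := by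
  obtain ⟨A, hA, h⟩ := h3
  refine ⟨A, hA, ?_⟩
  intro d J hd hJ
  obtain ⟨K, τ, hK, hτ, hτJ, hb2, hb3⟩ := h d J hd hJ
  obtain ⟨T, -, hT⟩ := Finset.exists_subset_card_eq (s := (Finset.univ : Finset (Fin d)))
    (n := K) (by simpa using hK)
  have hN1 : ((Fs d J).image (key T (gJ τ J))).card ≤
      4 ^ d * (J + 1) ^ K * (J / τ + 2) ^ (d - K) := by
    have h4 := (h2 d J τ T ∅ hτ hτJ (Finset.empty_subset _)).1
    have h5 : ((Fs d J).image (key T (gJ τ J))).image (drop (∅ : Finset (Fin d))) =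
        (Fs d J).image (key T (gJ τ J)) := by
      have : (drop (∅ : Finset (Fin d)) : (Fin d → ℕ) → (Fin d → ℕ)) = id := by
        funext κ i
        simp [drop]
      rw [this, Finset.image_id]
    rw [h5, hT, Finset.card_empty, Nat.sub_zero] at h4
    exact h4
  have hN2 : ∀ T' ⊆ T, T'.card = (T.card + 1) / 2 →
      (((Fs d J).image (key T (gJ τ J))).image (drop T')).card ≤
        4 ^ d * (J + 1) ^ (K - (K + 1) / 2) * (J / τ + 2) ^ (d - K) := by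
    intro T' hT' hc
    have h4 := (h2 d J τ T T' hτ hτJ hT').1
    rw [hc, hT] at h4
    exact h4
  have hΛ := (h2 d J τ T ∅ hτ hτJ (Finset.empty_subset _)).2
  have hnet := h1 d J τ (d * (J + 2 + τ)) _ _ T (gJ τ J) (gJ_spec hτ J) hN1 hN2 hΛ
  rw [hT] at hnet
  refine ⟨max (2 ^ d * ((4 ^ d * (J + 1) ^ K * (J / τ + 2) ^ (d - K)) *
      (2 ^ (K + 1) * (d * (J + 2 + τ) + 1))))
    (2 ^ d * (2 ^ K * (4 ^ d * (J + 1) ^ (K - (K + 1) / 2) * (J / τ + 2) ^ (d - K)) *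
      (2 ^ τ + 1) ^ (2 * (d - K)))), ?_, ?_⟩
  · rw [Nat.cast_max]
    exact max_le hb2 hb3
  · refine net3_mono ?_ (le_max_left _ _) (le_max_right _ _) hnet
    refine le_trans ?_ (le_max_left _ _)
    refine Nat.mul_le_mul_left _ ?_
    refine Nat.le_mul_of_pos_right _ ?_
    positivity

end Pool.Agent.Helper8.UQ.PkNETZ
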